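import Pool.Agent.H76.MXT.Stmts

set_option autoImplicit false

namespace Pool.MXT

open Set

theorem odd_thm (hT : S_TUR) : S_ODD := by
  intro G x₀ y₀ δ hδ hC hNZ hodd
  obtain ⟨a, ha⟩ : ∃ a, a = x₀ - δ := ⟨_, rfl⟩
  obtain ⟨b, hb⟩ : ∃ b, b = x₀ + δ := ⟨_, rfl⟩
  obtain ⟨c, hc⟩ : ∃ c, c = y₀ - δ := ⟨_, rfl⟩
  obtain ⟨d, hd⟩ : ∃ d, d = y₀ + δ := ⟨_, rfl⟩
  rw [← ha, ← hb, ← hc, ← hd] at hC hNZ ⊢
  rw [← ha, ← hb, ← hc, ← hd] at hodd
  have hab : a ≤ b := by rw [ha, hb]; linarith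
  have hcd : c ≤ d := by rw [hc, hd]; linarith
  have hac : a ∈ Icc a b := ⟨le_refl _, hab⟩
  have hbb : b ∈ Icc a b := ⟨hab, le_refl _⟩
  have hcc : c ∈ Icc c d := ⟨le_refl _, hcd⟩
  have hdd : d ∈ Icc c d := ⟨hcd, le_refl _⟩
  have okh : ∀ y ∈ Icc c d, (∀ x ∈ Icc a b, G x y ≠ 0) → Ok (fun x => G x y) a b := by
    intro y hy h
    refine ⟨?_, h⟩
    have : ContinuousOn (fun x : ℝ => (x, y)) (Icc a b) := by fun_prop
    exact hC.comp this (fun x hx => ⟨hx, hy⟩)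
  have okv : ∀ x ∈ Icc a b, (∀ y ∈ Icc c d, G x y ≠ 0) → Ok (fun y => G x y) c d := by
    intro x hx h
    refine ⟨?_, h⟩
    have : ContinuousOn (fun y : ℝ => (x, y)) (Icc c d) := by fun_prop
    exact hC.comp this (fun y hy => ⟨hx, hy⟩)
  have ok1 := okh c hcc (fun x hx => (hNZ.1 x hx).1)
  have ok2 := okv b hbb (fun y hy => (hNZ.2 y hy).2)
  obtain ⟨-, n1, r1, -, e1⟩ := hT _ a b hab ok1
  obtain ⟨-, n2, r2, -, e2⟩ := hT _ c d hcd ok2
  -- reversed edges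
  have ok1r : Ok (fun x => G (a + b - x) c) a b := by
    refine ⟨?_, fun x hx => ?_⟩
    · have : ContinuousOn (fun x : ℝ => a + b - x) (Icc a b) := by fun_prop
      exact ok1.1.comp this (fun x hx => ⟨by linarith [hx.2], by linarith [hx.1]⟩)
    · exact (hNZ.1 (a + b - x) ⟨by linarith [hx.2], by linarith [hx.1]⟩).1
  have ok2r : Ok (fun y => G b (c + d - y)) c d := by
    refine ⟨?_, fun x hx => ?_⟩
    · have : ContinuousOn (fun y : ℝ => c + d - y) (Icc c d) := by fun_prop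
      exact ok2.1.comp this (fun x hx => ⟨by linarith [hx.2], by linarith [hx.1]⟩)
    · exact (hNZ.2 (c + d - x) ⟨by linarith [hx.2], by linarith [hx.1]⟩).2
  obtain ⟨-, m1, -, -, -⟩ := hT _ a b hab ok1r
  obtain ⟨-, m2, -, -, -⟩ := hT _ c d hcd ok2r
  have ok1n : Ok (fun x => - G (a + b - x) c) a b := ⟨ok1r.1.neg, fun x hx => neg_ne_zero.2 (ok1r.2 x hx)⟩
  have ok2n : Ok (fun y => - G b (c + d - y)) c d := ⟨ok2r.1.neg, fun x hx => neg_ne_zero.2 (ok2r.2 x hx)⟩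
  obtain ⟨-, -, -, k1, -⟩ := hT _ a b hab ok1n
  obtain ⟨-, -, -, k2, -⟩ := hT _ c d hcd ok2n
  have top : turn (fun x => G x d) a b = - turn (fun x => G x c) a b := by
    rw [k1 (fun x => G x d) ?_, m1, r1]
    intro x hx
    have := hodd (a + b - x) ⟨by linarith [hx.2], by linarith [hx.1]⟩ c hcc
    rw [← this]
    congr 1
    · rw [ha, hb]; ring
    · rw [hc, hd]; ring
  have left : turn (fun y => G a y) c d = - turn (fun y => G b y) c d := by
    rw [k2 (fun y => G a y) ?_, m2, r2]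
    intro x hx
    have := hodd b hbb (c + d - x) ⟨by linarith [hx.2], by linarith [hx.1]⟩
    rw [← this]
    congr 1
    · rw [ha, hb]; ring
    · rw [hc, hd]; ring
  have hbd : G b d = - G a c := by
    rw [← hodd a hac c hcc]
    congr 1
    · rw [ha, hb]; ring
    · rw [hc, hd]; ring
  have hGac : G a c ≠ 0 := (hNZ.1 a hac).1
  have hGbc : G b c ≠ 0 := (hNZ.1 b hbb).1
  have nac : (‖G a c‖ : ℂ) ≠ 0 := by
    exact_mod_cast norm_ne_zero_iff.2 hGac
  have nbc : (‖G b c‖ : ℂ) ≠ 0 := by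
    exact_mod_cast norm_ne_zero_iff.2 hGbc
  rw [hbd, norm_neg] at e2
  obtain ⟨u, hu⟩ : ∃ u, u = turn (fun x => G x c) a b := ⟨_, rfl⟩
  obtain ⟨v, hv⟩ : ∃ v, v = turn (fun y => G b y) c d := ⟨_, rfl⟩
  rw [← hu] at e1 top
  rw [← hv] at e2 left
  have key : Complex.exp (((u + v : ℝ) : ℂ) * Complex.I) = -1 := by
    have hs : Complex.exp (((u + v : ℝ) : ℂ) * Complex.I) =
        Complex.exp ((u : ℂ) * Complex.I) * Complex.exp ((v : ℂ) * Complex.I) := by
      rw [← Complex.exp_add]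
      congr 1
      push_cast
      ring
    rw [hs]
    have h3 : (‖G b c‖ : ℂ) * G a c * (Complex.exp ((u : ℂ) * Complex.I) *
        Complex.exp ((v : ℂ) * Complex.I)) = (‖G b c‖ : ℂ) * G a c * (-1) := by
      calc (‖G b c‖ : ℂ) * G a c * (Complex.exp ((u : ℂ) * Complex.I) *
            Complex.exp ((v : ℂ) * Complex.I))
          = ((‖G b c‖ : ℂ) * G a c * Complex.exp ((u : ℂ) * Complex.I)) *
            Complex.exp ((v : ℂ) * Complex.I) := by ring
        _ = ((‖G a c‖ : ℂ) * G b c) * Complex.exp ((v : ℂ) * Complex.I) := by rw [e1]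
        _ = (‖G a c‖ : ℂ) * G b c * Complex.exp ((v : ℂ) * Complex.I) := by ring
        _ = (‖G b c‖ : ℂ) * -G a c := by rw [e2]
        _ = (‖G b c‖ : ℂ) * G a c * (-1) := by ring
    exact mul_left_cancel₀ (mul_ne_zero nbc hGac) h3
  have key2 : ∃ n : ℤ, ((u + v : ℝ) : ℂ) * Complex.I =
      (Real.pi : ℂ) * Complex.I + n * (2 * Real.pi * Complex.I) := by
    rw [← Complex.exp_eq_exp_iff_exists_int, key, Complex.exp_pi_mul_I]
  obtain ⟨n, hn⟩ := key2
  have key3 : u + v = Real.pi * (2 * n + 1) := by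
    have := congrArg Complex.im hn
    simpa [mul_comm, mul_assoc, mul_left_comm, mul_add, add_comm, add_mul] using this
  refine ⟨n, ?_⟩
  unfold wnd
  rw [top, left, ← hu, ← hv]
  linear_combination 2 * key3

end Pool.MXT
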