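import Pool.Agent.H76.MXT.Stmts

set_option autoImplicit false

namespace Pool.MXT

open Set

theorem rct_thm (h1 : S_LF2) (h2 : S_LFU) : S_RCT := by
  intro F a b c d hab hcd hC hNZ
  obtain ⟨L, hL, hF⟩ := h1 F a b c d hab hcd hC hNZ
  have hh : ∀ y ∈ Icc c d, turn (fun x => F x y) a b = L b y - L a y := by
    intro y hy
    have c1 : ContinuousOn (fun x : ℝ => (x, y)) (Icc a b) := by fun_prop
    have ok : Ok (fun x => F x y) a b :=
      ⟨hC.comp c1 (fun x hx => ⟨hx, hy⟩), fun x hx => hNZ x hx y hy⟩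
    exact (h2 _ a b hab ok).2 (fun x => L x y)
      ⟨hL.comp c1 (fun x hx => ⟨hx, hy⟩), fun x hx => hF x hx y hy⟩
  have hv : ∀ x ∈ Icc a b, turn (fun y => F x y) c d = L x d - L x c := by
    intro x hx
    have c1 : ContinuousOn (fun y : ℝ => (x, y)) (Icc c d) := by fun_prop
    have ok : Ok (fun y => F x y) c d :=
      ⟨hC.comp c1 (fun y hy => ⟨hx, hy⟩), fun y hy => hNZ x hx y hy⟩
    exact (h2 _ c d hcd ok).2 (fun y => L x y)
      ⟨hL.comp c1 (fun y hy => ⟨hx, hy⟩), fun y hy => hF x hx y hy⟩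
  unfold wnd
  rw [hh c ⟨le_refl _, hcd⟩, hh d ⟨hcd, le_refl _⟩, hv a ⟨le_refl _, hab⟩, hv b ⟨hab, le_refl _⟩]
  ring

end Pool.MXT
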