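import Pool.Agent.H76.MXT.Stmts

set_option autoImplicit false

namespace Pool.MXT

open Set

theorem sgn_thm : S_SGN := by
  intro a s₀ δ hδ hC hI h0
  have hs₀ : s₀ ∈ Icc (s₀ - δ) (s₀ + δ) := ⟨by linarith, by linarith⟩
  have hz : ∀ s ∈ Icc (s₀ - δ) (s₀ + δ), a s = 0 → s = s₀ := by
    intro s hs h
    exact hI hs hs₀ (by rw [h, h0])
  rcases ContinuousOn.strictMonoOn_of_injOn_Icc' (by linarith) hC hI with hm | hm
  · refine ⟨1, Or.inl rfl, fun s hs => ⟨?_, hz s hs⟩⟩
    rcases lt_trichotomy s s₀ with h | h | h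
    · have := hm hs hs₀ h
      rw [h0] at this
      nlinarith
    · rw [h]; simp
    · have := hm hs₀ hs h
      rw [h0] at this
      nlinarith
  · refine ⟨-1, Or.inr rfl, fun s hs => ⟨?_, hz s hs⟩⟩
    rcases lt_trichotomy s s₀ with h | h | h
    · have := hm hs hs₀ h
      rw [h0] at this
      nlinarith
    · rw [h]; simp
    · have := hm hs₀ hs h
      rw [h0] at this
      nlinarith

end Pool.MXT
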